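import Mathlib

set_option autoImplicit false

namespace Pool.Agent.Results.MP_fd2cdc_co.Regular

open Cardinal Set

/-- transfinite greedy choice -/
theorem greedy {P : Type} (k : Cardinal.{0}) (hk : k.IsRegular) (X : k.ord.ToType → Set P)
    (hX : ∀ t, k ≤ Cardinal.mk (X t)) (S : Set P) (hXS : ∀ t, X t ⊆ S) (N : P → Set P)
    (hN : ∀ a ∈ S, Cardinal.mk (N a) < k) :
    ∃ f : k.ord.ToType → P, (∀ t, f t ∈ X t) ∧ ∀ t t', t' < t → f t ∉ N (f t') := by
  classical
  have hne : ∀ t, (X t).Nonempty := by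
    intro t
    have : Cardinal.mk (X t) ≠ 0 := (lt_of_lt_of_le hk.pos (hX t)).ne'
    exact Set.nonempty_coe_sort.mp (Cardinal.mk_ne_zero_iff.mp this)
  let step : (t : k.ord.ToType) → ((t' : k.ord.ToType) → t' < t → P) → P := fun t g =>
    if h : ∃ a, a ∈ X t ∧ ∀ t' (ht : t' < t), a ∉ N (g t' ht) then h.choose else (hne t).choose
  let f : k.ord.ToType → P := WellFounded.fix (wellFounded_lt) step
  have hf : ∀ t, f t = step t (fun t' _ => f t') := fun t => WellFounded.fix_eq _ _ t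
  have hfX : ∀ t, f t ∈ X t := by
    intro t
    rw [hf t]
    simp only [step]
    split_ifs with h
    · exact h.choose_spec.1
    · exact (hne t).choose_spec
  refine ⟨f, hfX, ?_⟩
  intro t
  have hex : ∃ a, a ∈ X t ∧ ∀ t' (_ : t' < t), a ∉ N (f t') := by
    by_contra hcon
    push Not at hcon
    have hsub : X t ⊆ ⋃ t' ∈ Iio t, N (f t') := by
      intro a ha
      obtain ⟨t', ht', h2⟩ := hcon a ha
      exact mem_biUnion ht' h2
    have hlt : Cardinal.mk (⋃ t' ∈ Iio t, N (f t') : Set P) < k := by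
      exact (Cardinal.card_biUnion_lt_iff_forall_of_isRegular (s := Iio t)
        (t := fun t' _ => N (f t')) hk (Cardinal.mk_Iio_toType_ord_lt t)).2
        (fun t' _ => hN _ (hXS t' (hfX t')))
    exact absurd ((hX t).trans (Cardinal.mk_le_mk_of_subset hsub)) (not_le.mpr hlt)
  intro t' ht'
  have h1 : f t = hex.choose := by
    rw [hf t]
    simp only [step]
    rw [dif_pos hex]
  rw [h1]
  exact hex.choose_spec.2 t' ht'

theorem wf_of_bound {P : Type} [PartialOrder P]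
    (h : ∃ n : ℕ, ∀ s : Set P, IsChain (· ≤ ·) s → s.encard ≤ (n : ℕ∞)) :
    WellFoundedGT P ∧ WellFoundedLT P := by
  obtain ⟨n, hn⟩ := h
  constructor
  · rw [WellFoundedGT, isWellFounded_iff, RelEmbedding.wellFounded_iff_isEmpty]
    refine ⟨fun e => ?_⟩
    have hc : IsChain (· ≤ ·) (Set.range e) := by
      rintro _ ⟨i, rfl⟩ _ ⟨j, rfl⟩ hij
      have hne : i ≠ j := fun h => hij (by rw [h])
      rcases lt_or_gt_of_ne hne with h | h
      · exact Or.inl (le_of_lt (e.map_rel_iff.2 h))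
      · exact Or.inr (le_of_lt (e.map_rel_iff.2 h))
    have h1 := hn _ hc
    rw [(Set.infinite_range_of_injective e.injective).encard_eq] at h1
    exact absurd h1 (by simp)
  · rw [WellFoundedLT, isWellFounded_iff, RelEmbedding.wellFounded_iff_isEmpty]
    refine ⟨fun e => ?_⟩
    have hc : IsChain (· ≤ ·) (Set.range e) := by
      rintro _ ⟨i, rfl⟩ _ ⟨j, rfl⟩ hij
      have hne : i ≠ j := fun h => hij (by rw [h])
      rcases lt_or_gt_of_ne hne with h | h
      · exact Or.inr (le_of_lt (e.map_rel_iff.2 h))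
      · exact Or.inl (le_of_lt (e.map_rel_iff.2 h))
    have h1 := hn _ hc
    rw [(Set.infinite_range_of_injective e.injective).encard_eq] at h1
    exact absurd h1 (by simp)

/-- a kernel: small degrees inside, large degrees from outside -/
theorem kernel {P : Type} [PartialOrder P] [WellFoundedGT P] [WellFoundedLT P]
    (k : Cardinal.{0}) (hk : k.IsRegular) :
    ∃ S : Set P, (∀ s ∈ S, Cardinal.mk {t | t ∈ S ∧ (s ≤ t ∨ t ≤ s)} < k) ∧
      ∀ v, v ∉ S → k ≤ Cardinal.mk {t | t ∈ S ∧ (v ≤ t ∨ t ≤ v)} := by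
  classical
  let R1 : Set P → Set P := fun A => {v | k ≤ Cardinal.mk {a | a ∈ A ∧ a < v}}
  let R2 : Set P → Set P := fun B => {v | k ≤ Cardinal.mk {b | b ∈ B ∧ v < b}}
  have m1 : Monotone R1 := by
    intro A A' h v hv
    have hs : {a | a ∈ A ∧ a < v} ⊆ {a | a ∈ A' ∧ a < v} := fun a ha => ⟨h ha.1, ha.2⟩
    exact le_trans hv (Cardinal.mk_le_mk_of_subset hs)
  have m2 : Monotone R2 := by
    intro A A' h v hv
    have hs : {a | a ∈ A ∧ v < a} ⊆ {a | a ∈ A' ∧ v < a} := fun a ha => ⟨h ha.1, ha.2⟩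
    exact le_trans hv (Cardinal.mk_le_mk_of_subset hs)
  let G : Set P →o Set P := ⟨fun A => (R2 (R1 A)ᶜ)ᶜ, fun A A' h =>
    compl_subset_compl.2 (m2 (compl_subset_compl.2 (m1 h)))⟩
  obtain ⟨A, hA⟩ : ∃ A, G A = A := ⟨G.lfp, G.map_lfp⟩
  set B := (R1 A)ᶜ with hB
  have hA' : A = (R2 B)ᶜ := hA.symm
  have hAin : ∀ v, v ∈ A ↔ Cardinal.mk {b | b ∈ B ∧ v < b} < k := by
    intro v
    conv_lhs => rw [hA']
    simp only [R2, mem_compl_iff, mem_setOf_eq, not_le]
  have hBin : ∀ v, v ∈ B ↔ Cardinal.mk {a | a ∈ A ∧ a < v} < k := by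
    intro v
    conv_lhs => rw [hB]
    simp only [R1, mem_compl_iff, mem_setOf_eq, not_le]
  have up : ∀ v, v ∉ A → k ≤ Cardinal.mk {t | t ∈ A ∩ B ∧ v < t} := by
    intro v
    induction v using WellFoundedGT.induction with
    | ind v ih =>
      intro hv
      by_cases hc : ∃ b, b ∈ B ∧ v < b ∧ b ∉ A
      · obtain ⟨b, -, hvb, hbA⟩ := hc
        exact (ih b hvb hbA).trans
          (Cardinal.mk_le_mk_of_subset (fun a ha => ⟨ha.1, hvb.trans ha.2⟩))
      · push Not at hc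
        rw [hAin, not_lt] at hv
        exact hv.trans (Cardinal.mk_le_mk_of_subset
          (fun a ha => ⟨⟨hc a ha.1 ha.2, ha.1⟩, ha.2⟩))
  have down : ∀ v, v ∉ B → k ≤ Cardinal.mk {t | t ∈ A ∩ B ∧ t < v} := by
    intro v
    induction v using WellFoundedLT.induction with
    | ind v ih =>
      intro hv
      by_cases hc : ∃ b, b ∈ A ∧ b < v ∧ b ∉ B
      · obtain ⟨b, -, hvb, hbA⟩ := hc
        exact (ih b hvb hbA).trans
          (Cardinal.mk_le_mk_of_subset (fun a ha => ⟨ha.1, ha.2.trans hvb⟩))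
      · push Not at hc
        rw [hBin, not_lt] at hv
        exact hv.trans (Cardinal.mk_le_mk_of_subset
          (fun a ha => ⟨⟨ha.1, hc a ha.1 ha.2⟩, ha.2⟩))
  refine ⟨A ∩ B, ?_, ?_⟩
  · intro s hs
    have hsub : {t | t ∈ A ∩ B ∧ (s ≤ t ∨ t ≤ s)} ⊆
        ({b | b ∈ B ∧ s < b} ∪ {a | a ∈ A ∧ a < s}) ∪ {s} := by
      rintro t ⟨ht, h | h⟩
      · rcases h.eq_or_lt with h | h
        · exact Or.inr h.symm
        · exact Or.inl (Or.inl ⟨ht.2, h⟩)
      · rcases h.eq_or_lt with h | h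
        · exact Or.inr h
        · exact Or.inl (Or.inr ⟨ht.1, h⟩)
    refine lt_of_le_of_lt (Cardinal.mk_le_mk_of_subset hsub) ?_
    refine lt_of_le_of_lt (Cardinal.mk_union_le _ _) ?_
    refine Cardinal.add_lt_of_lt hk.aleph0_le ?_ ?_
    · refine lt_of_le_of_lt (Cardinal.mk_union_le _ _) ?_
      exact Cardinal.add_lt_of_lt hk.aleph0_le ((hAin s).1 hs.1) ((hBin s).1 hs.2)
    · rw [Cardinal.mk_singleton]
      exact lt_of_lt_of_le Cardinal.one_lt_aleph0 hk.aleph0_le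
  · intro v hv
    by_cases h : v ∈ A
    · have hb : v ∉ B := fun hb => hv ⟨h, hb⟩
      exact (down v hb).trans
        (Cardinal.mk_le_mk_of_subset (fun a ha => ⟨ha.1, Or.inr ha.2.le⟩))
    · exact (up v h).trans
        (Cardinal.mk_le_mk_of_subset (fun a ha => ⟨ha.1, Or.inl ha.2.le⟩))

/-- Q1 holds for every poset of finite length whose cardinality is a regular cardinal
(countably infinite posets, posets of any infinite successor cardinality). -/
theorem result :
    ∀ (P : Type) [PartialOrder P], (Cardinal.mk P).IsRegular →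
      (∃ n : ℕ, ∀ s : Set P, IsChain (· ≤ ·) s → s.encard ≤ (n : ℕ∞)) →
      ∃ H : Set P, H.Infinite ∧ IsAntichain (· ≤ ·) H ∧
        ∀ x : P,
          ({h | h ∈ H ∧ (x ≤ h ∨ h ≤ x)}.encard = 0 ∨
           {h | h ∈ H ∧ (x ≤ h ∨ h ≤ x)}.encard = 1 ∨
           {h | h ∈ H ∧ (x ≤ h ∨ h ≤ x)}.Infinite) := by
  intro P _ hk hn
  classical
  obtain ⟨w1, w2⟩ := wf_of_bound hn
  set k := Cardinal.mk P with hkdef
  obtain ⟨S, hS1, hS2⟩ := kernel (P := P) k hk
  have hSbig : k ≤ Cardinal.mk S := by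
    by_cases h : ∃ v, v ∉ S
    · obtain ⟨v, hv⟩ := h
      exact (hS2 v hv).trans (Cardinal.mk_le_mk_of_subset (fun a ha => ha.1))
    · push Not at h
      have : S = Set.univ := Set.eq_univ_of_forall h
      rw [this, Cardinal.mk_univ]
  have hinf : Infinite P := Cardinal.infinite_iff.2 hk.aleph0_le
  have hcard : Cardinal.mk (k.ord.ToType) = Cardinal.mk (P × ℕ) := by
    rw [Cardinal.mk_ord_toType, Cardinal.mk_prod, Cardinal.lift_id, Cardinal.lift_id,
      Cardinal.mk_nat, Cardinal.mul_eq_left hk.aleph0_le hk.aleph0_le Cardinal.aleph0_ne_zero]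
  obtain ⟨e⟩ := Cardinal.eq.1 hcard
  let X : k.ord.ToType → Set P := fun t =>
    if (e t).1 ∈ S then S else {a | a ∈ S ∧ ((e t).1 ≤ a ∨ a ≤ (e t).1)}
  have hX : ∀ t, k ≤ Cardinal.mk (X t) := by
    intro t
    by_cases h : (e t).1 ∈ S
    · have : X t = S := if_pos h
      rw [this]; exact hSbig
    · have : X t = {a | a ∈ S ∧ ((e t).1 ≤ a ∨ a ≤ (e t).1)} := if_neg h
      rw [this]; exact hS2 _ h
  have hXS : ∀ t, X t ⊆ S := by
    intro t
    by_cases h : (e t).1 ∈ S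
    · have : X t = S := if_pos h
      rw [this]
    · have : X t = {a | a ∈ S ∧ ((e t).1 ≤ a ∨ a ≤ (e t).1)} := if_neg h
      rw [this]; exact fun a ha => ha.1
  let N : P → Set P := fun a =>
    ⋃ s ∈ {t | t ∈ S ∧ (a ≤ t ∨ t ≤ a)}, {t | t ∈ S ∧ (s ≤ t ∨ t ≤ s)}
  have hN : ∀ a ∈ S, Cardinal.mk (N a) < k := by
    intro a ha
    exact (Cardinal.card_biUnion_lt_iff_forall_of_isRegular
      (s := {t | t ∈ S ∧ (a ≤ t ∨ t ≤ a)})
      (t := fun s _ => {t | t ∈ S ∧ (s ≤ t ∨ t ≤ s)}) hk (hS1 a ha)).2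
      (fun s hs => hS1 s hs.1)
  obtain ⟨f, hfX, hfN⟩ := greedy k hk X hX S hXS N hN
  have hfS : ∀ t, f t ∈ S := fun t => hXS t (hfX t)
  have key : ∀ t t' s, s ∈ S → (s ≤ f t ∨ f t ≤ s) → (s ≤ f t' ∨ f t' ≤ s) → t = t' := by
    intro t t' s hs h1 h2
    by_contra hne
    rcases lt_or_gt_of_ne hne with h | h
    · exact hfN t' t h (mem_biUnion (x := s) ⟨hs, h1.symm⟩ ⟨hfS t', h2⟩)
    · exact hfN t t' h (mem_biUnion (x := s) ⟨hs, h2.symm⟩ ⟨hfS t, h1⟩)
  have hinj : Function.Injective f := by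
    intro t t' h
    exact key t t' (f t) (hfS t) (Or.inl le_rfl) (Or.inl h.le)
  have hT : Infinite (k.ord.ToType) := Infinite.of_injective e.symm e.symm.injective
  refine ⟨Set.range f, Set.infinite_range_of_injective hinj, ?_, ?_⟩
  · rintro _ ⟨t, rfl⟩ _ ⟨t', rfl⟩ hne hle
    exact hne (by rw [key t t' (f t) (hfS t) (Or.inl le_rfl) (Or.inl hle)])
  · intro x
    by_cases hx : x ∈ S
    · have hss : {h | h ∈ Set.range f ∧ (x ≤ h ∨ h ≤ x)}.Subsingleton := by
        rintro _ ⟨⟨t, rfl⟩, h1⟩ _ ⟨⟨t', rfl⟩, h2⟩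
        rw [key t t' x hx h1 h2]
      rcases hss.eq_empty_or_singleton with h | ⟨a, h⟩
      · left; rw [h]; exact Set.encard_empty
      · right; left; rw [h]; exact Set.encard_singleton a
    · right; right
      refine Set.infinite_of_injective_forall_mem (f := fun n : ℕ => f (e.symm (x, n))) ?_ ?_
      · intro a b hab
        have := e.symm.injective (hinj hab)
        exact (Prod.ext_iff.1 this).2
      · intro n
        refine ⟨⟨_, rfl⟩, ?_⟩
        have h1 := hfX (e.symm (x, n))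
        have h2 : X (e.symm (x, n)) = {a | a ∈ S ∧ (x ≤ a ∨ a ≤ x)} := by
          simp only [X, Equiv.apply_symm_apply]
          exact if_neg hx
        rw [h2] at h1
        exact h1.2

end Pool.Agent.Results.MP_fd2cdc_co.Regular
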